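import Mathlib
import Pool.Agent.TH431.WP.Base

/-!
Symplectic, quadratic and hermitian forms are formed spaces in the sense of
`Pool.Agent.TH431.WP.FS`, with Siegel transitivity.
-/

set_option autoImplicit false

namespace Pool.Agent.TH267.WP

open Pool.Agent.TH431.WP

section siegel

variable {F V : Type} [Field F] [AddCommGroup V] [Module F V]
variable {σ : F →+* F} (B : V →ₛₗ[σ] V →ₗ[F] F) (z y : V) (e c : F)

/-- the map `w ↦ w + B z w y + (c B z w - e B y w) z` -/
def sg : V →ₗ[F] V :=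
  LinearMap.id + (B z).smulRight y + (c • B z - e • B y).smulRight z

theorem sg_apply (w : V) :
    sg B z y e c w = w + B z w • y + (c * B z w - e * B y w) • z := by
  simp [sg]

theorem sg_comp (hzz : B z z = 0) (hzy : B z y = 0) (hyz : B y z = 0) {c' : F}
    (hc : c' = -c - e * B y y) (w : V) : sg B z y e c (sg B z (-y) e c' w) = w := by
  simp only [sg_apply, map_add, map_smul, map_neg, LinearMap.neg_apply, hzz, hzy, hyz]
  rw [hc]
  module

/-- the Siegel transformation -/
def sgE (hzz : B z z = 0) (hzy : B z y = 0) (hyz : B y z = 0) : V ≃ₗ[F] V :=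
  LinearEquiv.ofLinearMap (sg B z y e c) (sg B z (-y) e (-c - e * B y y))
    (LinearMap.ext fun w => sg_comp B z y e c hzz hzy hyz rfl w)
    (LinearMap.ext fun w => by
      have h := sg_comp B z (-y) e (-c - e * B y y) hzz (by simp [hzy]) (by simp [hyz])
        (c' := c) (by simp) w
      rw [neg_neg] at h
      exact h)

theorem sgE_apply (hzz : B z z = 0) (hzy : B z y = 0) (hyz : B y z = 0) (w : V) :
    sgE B z y e c hzz hzy hyz w = w + B z w • y + (c * B z w - e * B y w) • z :=
  sg_apply B z y e c w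

theorem sgE_isom (hσ : ∀ x y, B x y = e * σ (B y x)) (he : e * e = 1)
    (hσe : σ e = e) (hzz : B z z = 0) (hzy : B z y = 0) (hyz : B y z = 0)
    (hc : e * c + σ c + B y y = 0) (x w : V) :
    B (sgE B z y e c hzz hzy hyz x) (sgE B z y e c hzz hzy hyz w) = B x w := by
  rw [sgE_apply, sgE_apply]
  simp only [map_add, LinearMap.add_apply, LinearMap.map_smulₛₗ, LinearMap.smul_apply,
    smul_eq_mul, map_mul, map_sub, RingHom.id_apply, hzz, hzy, hyz, hσe]
  rw [hσ x y, hσ x z]
  linear_combination (B z w * σ (B z x)) * hc - (B y w * σ (B z x)) * he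

/-- all properties of the Siegel transformation moving `v` to `v'` -/
theorem siegel_aux (hσ : ∀ x y, B x y = e * σ (B y x)) (he : e * e = 1)
    (hσe : σ e = e) (v v' : V) (hzz : B z z = 0) (hvv : B v v = 0) (hvv' : B v' v' = 0)
    (hzv : B z v = 1) (hzv' : B z v' = 1) :
    ∃ g : V ≃ₗ[F] V, (∀ w, g w = w + B z w • (v' - v) +
        (e * B (v' - v) v * B z w - e * B (v' - v) w) • z) ∧
      (∀ x w, B (g x) (g w) = B x w) ∧ g z = z ∧ g v = v' ∧
      (∀ w, B z w = 0 → ∃ c : F, g w = w + c • z) ∧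
      (∀ w, B z w = 0 → B v w = 0 → B v' w = 0 → g w = w) := by
  have hzy : B z (v' - v) = 0 := by rw [map_sub, hzv, hzv', sub_self]
  have hyz : B (v' - v) z = 0 := by rw [hσ, hzy, map_zero, mul_zero]
  have hvz : B v z = e := by rw [hσ, hzv, map_one, mul_one]
  have hc : e * (e * B (v' - v) v) + σ (e * B (v' - v) v) + B (v' - v) (v' - v) = 0 := by
    have h1 : σ (e * B (v' - v) v) = B v (v' - v) := by
      rw [hσ v (v' - v), map_mul, hσe]
    rw [h1, ← mul_assoc, he, one_mul]
    simp only [map_sub, LinearMap.sub_apply, hvv, hvv']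
    ring
  refine ⟨sgE B z (v' - v) e (e * B (v' - v) v) hzz hzy hyz, fun w => sgE_apply _ _ _ _ _ _ _ _ w,
    fun x w => sgE_isom B z (v' - v) e _ hσ he hσe hzz hzy hyz hc x w, ?_, ?_, ?_, ?_⟩
  · rw [sgE_apply, hzz, hyz]; simp
  · rw [sgE_apply, hzv]
    simp
  · intro w hw
    refine ⟨-(e * B (v' - v) w), ?_⟩
    rw [sgE_apply, hw]
    simp
  · intro w hw h1 h2
    rw [sgE_apply, hw]
    simp [h1, h2]

end siegel

variable {F V : Type} [Field F] [Finite F] [AddCommGroup V] [Module F V]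

theorem alt_fs (b : LinearMap.BilinForm F V) (hb : ∀ x, b x x = 0)
    (hnd : ∀ z, (∀ v, b z v = 0) → z = 0) :
    ∃ Φ : FS F V, Siegel Φ ∧ (∀ x, x ∈ Φ.S) ∧ (∀ x y, Φ.B x y = b x y) ∧
      ∀ g : V ≃ₗ[F] V, g ∈ Iso Φ ↔ ∀ x y, b (g x) (g y) = b x y := by
  have hneg : ∀ x y, b x y = -b y x := by
    intro x y
    have h := hb (x + y)
    simp only [map_add, LinearMap.add_apply, hb, zero_add, add_zero] at h
    exact eq_neg_of_add_eq_zero_right h
  let Φ : FS F V :=
    { σ := RingHom.id F
      B := b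
      S := Set.univ
      a := Nat.card F
      σσ := fun _ => rfl
      refl := fun x y h => by rw [hneg, h, neg_zero]
      sing := fun x _ => hb x
      zero := Set.mem_univ _
      add := fun _ _ _ _ _ => Set.mem_univ _
      smul := fun _ _ _ => Set.mem_univ _
      adj := fun z _ v _ => Nat.card_congr (Equiv.subtypeUnivEquiv fun _ => Set.mem_univ _)
      apos := Nat.card_pos
      rad := fun z _ hz => by
        by_contra h
        push Not at h
        exact hz (hnd z h) }
  refine ⟨Φ, ?_, fun x => Set.mem_univ _, fun x y => rfl, fun g => ?_⟩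
  · intro z _ v _ v' _ h1 h2
    obtain ⟨g, _, hg1, hg2, hg3, hg4, hg5⟩ := siegel_aux (σ := RingHom.id F) b z (-1 : F)
      (fun x y => by rw [hneg x y]; simp) (by ring) rfl v v' (hb z) (hb v) (hb v')
      h1 h2
    exact ⟨g, ⟨hg1, fun x => by simp [Φ]⟩, hg2, hg3, hg4, hg5⟩
  · constructor
    · intro h; exact h.1
    · intro h; exact ⟨h, fun x => by simp [Φ]⟩

/-- quadratic forms; the first part needs no singular vectors -/
theorem quad_fs0 (Q : QuadraticForm F V)
    (hnd : ∀ z, Q z = 0 → (∀ v, QuadraticMap.polar Q z v = 0) → z = 0) :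
    ∃ Φ : FS F V, Siegel Φ ∧ (∀ x, x ∈ Φ.S ↔ Q x = 0) ∧
      (∀ x y, Φ.B x y = QuadraticMap.polar Q x y) ∧
      (∀ g : V ≃ₗ[F] V, (∀ x, Q (g x) = Q x) → g ∈ Iso Φ) ∧
      ((∃ z, z ≠ 0 ∧ Q z = 0) → ∀ g : V ≃ₗ[F] V, g ∈ Iso Φ → ∀ x, Q (g x) = Q x) := by
  set b : V →ₛₗ[RingHom.id F] V →ₗ[F] F := QuadraticMap.polarBilin Q with hb
  have hbp : ∀ x y, b x y = QuadraticMap.polar Q x y := fun x y => rfl
  have hadd : ∀ x y, Q (x + y) = Q x + Q y + b x y := fun x y => by
    rw [hbp, QuadraticMap.polar]; ring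
  have hsm : ∀ (c : F) x, Q (c • x) = c * c * Q x := fun c x => by
    rw [QuadraticMap.map_smul, smul_eq_mul]
  have hself : ∀ x, b x x = 2 * Q x := fun x => by
    have h := hadd x x
    rw [← two_smul F x, hsm] at h
    linear_combination -h
  have hsymm : ∀ x y, b x y = b y x := fun x y => QuadraticMap.polar_comm Q x y
  have hbs1 : ∀ (c : F) x y, b (c • x) y = c * b x y := fun c x y => by
    rw [LinearMap.map_smulₛₗ]; rfl
  have hbs2 : ∀ (c : F) x y, b x (c • y) = c * b x y := fun c x y => by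
    rw [map_smul]; rfl
  let Φ : FS F V :=
    { σ := RingHom.id F
      B := b
      S := {x | Q x = 0}
      a := 1
      σσ := fun _ => rfl
      refl := fun x y h => by rw [hsymm, h]
      sing := fun x hx => by rw [hself, show Q x = 0 from hx, mul_zero]
      zero := by simp
      add := fun x hx y hy h => by
        show Q (x + y) = 0
        rw [hadd, show Q x = 0 from hx, show Q y = 0 from hy, h]; ring
      smul := fun c x hx => by
        show Q (c • x) = 0
        rw [hsm, show Q x = 0 from hx, mul_zero]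
      adj := fun z hz v hv => by
        have h1 : ∀ c : F, v + c • z ∈ {x | Q x = 0} ↔ c = -Q v := by
          intro c
          show Q (v + c • z) = 0 ↔ _
          rw [hadd, hsm, show Q z = 0 from hz, hbs2, hsymm v z, hv]
          constructor
          · intro h; linear_combination h
          · intro h; rw [h]; ring
        simp only [h1]
        simp
      apos := one_pos
      rad := fun z hz hz0 => by
        by_contra h
        push Not at h
        exact hz0 (hnd z hz h) }
  refine ⟨Φ, ?_, fun x => Iff.rfl, fun x y => rfl, ?_, ?_⟩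
  · intro z hz v hv v' hv' h1 h2
    have hz' : Q z = 0 := hz
    have hvq : Q v = 0 := hv
    have hvq' : Q v' = 0 := hv'
    obtain ⟨g, hg0, hg1, hg2, hg3, hg4, hg5⟩ := siegel_aux (σ := RingHom.id F) b z (1 : F)
      (fun x y => by rw [hsymm x y]; simp) (by ring) rfl v v' (Φ.sing z hz) (Φ.sing v hv)
      (Φ.sing v' hv') h1 h2
    refine ⟨g, ⟨hg1, fun x => ?_⟩, hg2, hg3, hg4, hg5⟩
    have h1' : b z v = 1 := h1
    have h2' : b z v' = 1 := h2
    have hy : Q (v' - v) = -b (v' - v) v := by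
      have h3 : Q v' = Q (v' - v) + Q v + b (v' - v) v := by
        rw [← hadd, sub_add_cancel]
      rw [hvq, hvq'] at h3
      linear_combination -h3
    have hzy : b z (v' - v) = 0 := by rw [map_sub, h1', h2', sub_self]
    have key : Q (g x) = Q x := by
      rw [hg0, hadd, hadd, hsm, hsm, hz', hbs2, hbs2, map_add, LinearMap.add_apply, hbs1,
        hsymm x z, hsymm (v' - v) z, hzy, hsymm x (v' - v), hy]
      ring
    show Q (g x) = 0 ↔ Q x = 0
    rw [key]
  · intro g hg
    refine ⟨fun x y => ?_, fun x => ?_⟩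
    · have h1 := hadd x y
      have h2 := hadd (g x) (g y)
      rw [← map_add, hg, hg, hg, h1] at h2
      show b (g x) (g y) = b x y
      linear_combination -h2
    · show Q (g x) = 0 ↔ Q x = 0
      rw [hg]
  · rintro ⟨z, hz0, hz⟩ g ⟨hg1, hg2⟩ w
    have hgb : ∀ x y, b (g x) (g y) = b x y := hg1
    have hgs : ∀ x, Q x = 0 → Q (g x) = 0 := fun x hx => (hg2 x).2 hx
    -- a hyperbolic pair
    obtain ⟨v₀, hv₀⟩ := Φ.rad z hz hz0
    have hv₀' : b z v₀ ≠ 0 := hv₀
    obtain ⟨v₁, hv₁⟩ : ∃ t, t = (b z v₀)⁻¹ • v₀ := ⟨_, rfl⟩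
    have hzv₁ : b z v₁ = 1 := by rw [hv₁, hbs2, inv_mul_cancel₀ hv₀']
    have hzz : b z z = 0 := by rw [hself, hz, mul_zero]
    obtain ⟨v, hv⟩ : ∃ t, t = v₁ + (-Q v₁) • z := ⟨_, rfl⟩
    have hzv : b z v = 1 := by rw [hv, map_add, hbs2, hzz, hzv₁]; ring
    have hQv : Q v = 0 := by
      rw [hv, hadd, hsm, hz, hbs2, hsymm v₁ z, hzv₁]; ring
    have hvv : b v v = 0 := by rw [hself, hQv, mul_zero]
    have hvz : b v z = 1 := by rw [hsymm, hzv]
    -- additivity of the defect
    have hfadd : ∀ x y, Q (g (x + y)) - Q (x + y) = (Q (g x) - Q x) + (Q (g y) - Q y) := by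
      intro x y
      rw [map_add, hadd, hadd, hgb]; ring
    have hfsm : ∀ (c : F) x, Q x = 0 → Q (g (c • x)) - Q (c • x) = 0 := by
      intro c x hx
      rw [map_smul, hsm, hsm, hgs x hx, hx]; ring
    obtain ⟨w', hw'⟩ : ∃ t, t = w + (-(b z w)) • v + (-(b v w)) • z := ⟨_, rfl⟩
    have hzw' : b z w' = 0 := by
      rw [hw', map_add, map_add, hbs2, hbs2, hzv, hzz]; ring
    have hvw' : b v w' = 0 := by
      rw [hw', map_add, map_add, hbs2, hbs2, hvv, hvz]; ring
    obtain ⟨s, hs⟩ : ∃ t, t = w' + (z + (-(Q w')) • v) := ⟨_, rfl⟩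
    have hQs : Q s = 0 := by
      rw [hs, hadd, hadd, hsm, hz, hQv, map_add, hbs2, hbs2, hzv, hsymm w' z, hzw', hsymm w' v,
        hvw']
      ring
    have hdec : w = s + ((Q w' + b z w) • v + (b v w - 1) • z) := by
      rw [hs, hw']
      module
    have h1 : Q (g w) - Q w = 0 := by
      have h2 := hfadd s ((Q w' + b z w) • v + (b v w - 1) • z)
      rw [← hdec, hfadd, hfsm _ v hQv, hfsm _ z hz, hgs s hQs, hQs] at h2
      linear_combination h2
    linear_combination h1

/-- quadratic forms with a singular vector -/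
theorem quad_fs (Q : QuadraticForm F V)
    (hnd : ∀ z, Q z = 0 → (∀ v, QuadraticMap.polar Q z v = 0) → z = 0)
    (hs : ∃ z, z ≠ 0 ∧ Q z = 0) :
    ∃ Φ : FS F V, Siegel Φ ∧ (∀ x, x ∈ Φ.S ↔ Q x = 0) ∧
      (∀ x y, Φ.B x y = QuadraticMap.polar Q x y) ∧
      ∀ g : V ≃ₗ[F] V, g ∈ Iso Φ ↔ ∀ x, Q (g x) = Q x := by
  obtain ⟨Φ, h1, h2, h3, h4, h5⟩ := quad_fs0 Q hnd
  exact ⟨Φ, h1, h2, h3, fun g => ⟨h5 hs g, h4 g⟩⟩

theorem herm_fs (σ : F →+* F) (hσσ : ∀ c, σ (σ c) = c) (hσ : ∃ c, σ c ≠ c)
    (h : V →ₛₗ[σ] V →ₗ[F] F) (hh : ∀ x y, σ (h x y) = h y x)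
    (hnd : ∀ z, (∀ v, h z v = 0) → z = 0) :
    ∃ Φ : FS F V, Siegel Φ ∧ (∀ x, x ∈ Φ.S ↔ h x x = 0) ∧ (∀ x y, Φ.B x y = h x y) ∧
      ∀ g : V ≃ₗ[F] V, g ∈ Iso Φ ↔ ∀ x y, h (g x) (g y) = h x y := by
  -- the trace is onto the fixed field
  have htr : ∀ e : F, σ e = e → ∃ c, c + σ c = e := by
    intro e he
    have hb : ∃ b : F, b + σ b ≠ 0 := by
      by_contra hcon
      push Not at hcon
      have h2 : (1 : F) + 1 = 0 := by simpa using hcon 1
      obtain ⟨c, hc⟩ := hσ
      apply hc
      have h3 := hcon c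
      linear_combination h3 - c * h2
    obtain ⟨b, hb⟩ := hb
    refine ⟨e / (b + σ b) * b, ?_⟩
    have ht : σ (b + σ b) = b + σ b := by rw [map_add, hσσ, add_comm]
    rw [map_mul, map_div₀, he, ht]
    field_simp
  have hbs1 : ∀ (c : F) x y, h (c • x) y = σ c * h x y := fun c x y => by
    rw [LinearMap.map_smulₛₗ]; rfl
  have hbs2 : ∀ (c : F) x y, h x (c • y) = c * h x y := fun c x y => by
    rw [map_smul]; rfl
  let Φ : FS F V :=
    { σ := σ
      B := h
      S := {x | h x x = 0}
      a := Nat.card {c : F // c + σ c = 0}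
      σσ := hσσ
      refl := fun x y hxy => by rw [← hh, hxy, map_zero]
      sing := fun x hx => hx
      zero := by simp
      add := fun x hx y hy hxy => by
        show h (x + y) (x + y) = 0
        have hyx : h y x = 0 := by rw [← hh, hxy, map_zero]
        rw [map_add, map_add, LinearMap.add_apply, LinearMap.add_apply,
          show h x x = 0 from hx, show h y y = 0 from hy, hxy, hyx]
        ring
      smul := fun c x hx => by
        show h (c • x) (c • x) = 0
        rw [hbs1, hbs2, show h x x = 0 from hx]; ring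
      adj := fun z hz v hv => by
        have hz' : h z z = 0 := hz
        have hvz : h v z = 1 := by rw [← hh, hv, map_one]
        obtain ⟨c₀, hc₀⟩ := htr (-h v v) (by rw [map_neg, hh])
        have h1 : ∀ c : F, v + c • z ∈ {x | h x x = 0} ↔ (c - c₀) + σ (c - c₀) = 0 := by
          intro c
          show h (v + c • z) (v + c • z) = 0 ↔ _
          rw [map_add, map_add, LinearMap.add_apply, LinearMap.add_apply, hbs1, hbs1, hbs2,
            hbs2, hz', hvz, show h z v = 1 from hv, map_sub]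
          constructor
          · intro h'; linear_combination h' - hc₀
          · intro h'; linear_combination h' + hc₀
        refine Nat.card_congr ((Equiv.subRight c₀).subtypeEquiv fun c => ?_)
        rw [h1]; rfl
      apos := by
        have : Nonempty {c : F // c + σ c = 0} := ⟨⟨0, by simp⟩⟩
        exact Nat.card_pos
      rad := fun z _ hz => by
        by_contra h'
        push Not at h'
        exact hz (hnd z h') }
  refine ⟨Φ, ?_, fun x => Iff.rfl, fun x y => rfl, fun g => ?_⟩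
  · intro z hz v hv v' hv' h1 h2
    obtain ⟨g, _, hg1, hg2, hg3, hg4, hg5⟩ := siegel_aux (σ := σ) h z (1 : F)
      (fun x y => by rw [one_mul, hh]) (by ring) (map_one σ) v v' hz hv hv' h1 h2
    refine ⟨g, ⟨hg1, fun x => ?_⟩, hg2, hg3, hg4, hg5⟩
    show h (g x) (g x) = 0 ↔ h x x = 0
    rw [hg1]
  · constructor
    · intro h'; exact h'.1
    · intro h'
      refine ⟨h', fun x => ?_⟩
      show h (g x) (g x) = 0 ↔ h x x = 0
      rw [h']

end Pool.Agent.TH267.WP
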